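import Pool.Agent.FS.GlpFrag.Trans

/-!
In the provability logic with `n` modalities every exact formula is projective.
-/

set_option autoImplicit false

namespace Pool.Agent.FS.GlpFrag.Variants.FiniteFragments

open Pool.Agent.FS.GlpFrag

theorem result (n m : ℕ) (φ : Fn n (Fin m)) (β : Type) (σ : Fin m → Fn n β)
    (hex : ∀ ψ : Fn n (Fin m), Dn (fun _ => False) (ψ.subst σ) ↔ Dn (fun a => a = φ) ψ) :
    ∃ τ : Fin m → Fn n (Fin m), Dn (fun _ => False) (φ.subst τ) ∧ ∀ i,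
      Dn (fun a => a = φ) (Fn.imp (Fn.var i) (τ i)) ∧
        Dn (fun a => a = φ) (Fn.imp (τ i) (Fn.var i)) :=
  exact_proj φ σ ((hex φ).2 (Dn.hyp φ rfl)) fun ψ => (hex ψ).1

end Pool.Agent.FS.GlpFrag.Variants.FiniteFragments
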